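import Pool.Agent.MP_cce4c9_lc.H87.SpecR

/-!
The number of candidates of the search is polynomial in `l`.
-/

set_option autoImplicit false

namespace Pool.Agent.MP_cce4c9_lc.H4

open Pool.Agent.MP_cce4c9_lc.H87

/-- Polynomially bounded functions. -/
def PolyB (g : ℕ → ℕ) : Prop := ∃ R : ℕ, ∀ l, 2 ≤ l → g l ≤ l ^ R

theorem PolyB.const (c : ℕ) : PolyB fun _ => c :=
  ⟨c, fun _ hl => (Nat.lt_two_pow_self).le.trans (Nat.pow_le_pow_left hl c)⟩

theorem PolyB.id' : PolyB fun l => l := ⟨1, fun l _ => by simp⟩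

theorem PolyB.add {f g : ℕ → ℕ} (hf : PolyB f) (hg : PolyB g) : PolyB fun l => f l + g l := by
  obtain ⟨a, ha⟩ := hf
  obtain ⟨b, hb⟩ := hg
  refine ⟨a + b + 1, fun l hl => ?_⟩
  have h1 : l ^ a ≤ l ^ (a + b) := Nat.pow_le_pow_right (by omega) (by omega)
  have h2 : l ^ b ≤ l ^ (a + b) := Nat.pow_le_pow_right (by omega) (by omega)
  have h3 := ha l hl
  have h4 := hb l hl
  have h5 : l ^ (a + b) * 2 ≤ l ^ (a + b) * l := Nat.mul_le_mul_left _ hl
  show f l + g l ≤ _
  rw [pow_succ]
  omega

theorem PolyB.mul {f g : ℕ → ℕ} (hf : PolyB f) (hg : PolyB g) : PolyB fun l => f l * g l := by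
  obtain ⟨a, ha⟩ := hf
  obtain ⟨b, hb⟩ := hg
  exact ⟨a + b, fun l hl => by rw [pow_add]; exact Nat.mul_le_mul (ha l hl) (hb l hl)⟩

theorem PolyB.pow {f : ℕ → ℕ} (hf : PolyB f) (k : ℕ) : PolyB fun l => f l ^ k := by
  obtain ⟨a, ha⟩ := hf
  exact ⟨a * k, fun l hl => by rw [pow_mul]; exact Nat.pow_le_pow_left (ha l hl) k⟩

theorem PolyB.mono {f g : ℕ → ℕ} (hg : PolyB g) (h : ∀ l, f l ≤ g l) : PolyB f := by
  obtain ⟨a, ha⟩ := hg
  exact ⟨a, fun l hl => (h l).trans (ha l hl)⟩

theorem length_flatMap_le {α β : Type} (L : List α) (f : α → List β) (c : ℕ)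
    (h : ∀ a ∈ L, (f a).length ≤ c) : (L.flatMap f).length ≤ L.length * c := by
  induction L with
  | nil => simp
  | cons a L ih =>
    have h1 := h a List.mem_cons_self
    have h2 := ih fun b hb => h b (List.mem_cons_of_mem _ hb)
    rw [List.flatMap_cons, List.length_append, List.length_cons, Nat.succ_mul]
    omega

theorem length_foldl_conv_le (D : Ds) (M : List (List El)) (c : ℕ)
    (h : ∀ g ∈ M, g.length ≤ c) (P : List El) :
    (M.foldl (conv D) P).length ≤ P.length + M.length * c := by
  induction M generalizing P with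
  | nil => simp
  | cons r M ih =>
    have h1 := ih (fun g hg => h g (List.mem_cons_of_mem _ hg)) (conv D P r)
    have h2 := h r List.mem_cons_self
    have h3 : (conv D P r).length = P.length + r.length - 1 := by simp [conv]
    rw [List.foldl_cons, List.length_cons, Nat.succ_mul]
    omega

theorem length_mon_le (D : Ds) (P : List El) : (mon D P).length ≤ P.length := by
  simp [mon]

theorem dlE_mono (v n : ℕ) {s s' : ℕ} (h : s ≤ s') : dlE v n s ≤ dlE v n s' := by
  unfold dlE
  gcongr

theorem length_eng_le (D : Ds) (v n : ℕ) (eqs : List (List El)) (i : ℕ) :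
    (eng D v n eqs i).length ≤ dlE v n eqs.length ^ (v + 1) :=
  (List.length_filter_le _ _).trans (by simp)

theorem length_mem_eng (D : Ds) (v n : ℕ) (eqs : List (List El)) (i : ℕ) :
    ∀ g ∈ eng D v n eqs i, g.length = dlE v n eqs.length := by
  intro g hg
  obtain ⟨J, -, rfl⟩ := List.mem_map.1 (List.mem_filter.1 hg).1
  simp

theorem length_solve_le (D : Ds) (v n N s : ℕ) (syss : List (List (List El)))
    (hN : syss.length ≤ N) (hs : ∀ eqs ∈ syss, eqs.length ≤ s) :
    (solve D v n syss).length ≤ 2 + N * (v * dlE v n s ^ (v + 1)) * dlE v n s := by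
  refine (length_mon_le _ _).trans ((length_foldl_conv_le D _ (dlE v n s) ?_ _).trans ?_)
  · intro g hg
    obtain ⟨eqs, he, hg⟩ := List.mem_flatMap.1 hg
    obtain ⟨i, -, hg⟩ := List.mem_flatMap.1 hg
    rw [length_mem_eng D v n eqs i g hg]
    exact dlE_mono v n (hs eqs he)
  · have h := length_flatMap_le syss (fun eqs => (List.range v).flatMap fun i => eng D v n eqs i)
      (v * dlE v n s ^ (v + 1)) fun eqs he => by
        have := length_flatMap_le (List.range v) (fun i => eng D v n eqs i)
          (dlE v n s ^ (v + 1)) fun i _ => (length_eng_le D v n eqs i).trans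
            (Nat.pow_le_pow_left (dlE_mono v n (hs eqs he)) _)
        simpa using this
    exact Nat.add_le_add (by simp)
      (Nat.mul_le_mul_right _ (h.trans (Nat.mul_le_mul_right _ hN)))

theorem polyB_dlE (v : ℕ) {n s : ℕ → ℕ} (hn : PolyB n) (hs : PolyB s) :
    PolyB fun l => dlE v (n l) (s l) := by
  have h1 : PolyB fun l => n l - 1 := hn.mono fun l => Nat.sub_le _ _
  exact (((((PolyB.const v).mul ((PolyB.const v).mul h1)).add (PolyB.const 2)).pow v).mul
    (hs.add (PolyB.const 1))).add (PolyB.const 1)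

theorem polyB_solve (v : ℕ) {n N s : ℕ → ℕ} (hn : PolyB n) (hN : PolyB N) (hs : PolyB s) :
    PolyB fun l => 2 + N l * (v * dlE v (n l) (s l) ^ (v + 1)) * dlE v (n l) (s l) :=
  (PolyB.const 2).add ((hN.mul ((PolyB.const v).mul ((polyB_dlE v hn hs).pow _))).mul
    (polyB_dlE v hn hs))

theorem length_rowsL_le (d m l : ℕ) (μ : List ℕ) :
    (rowsL d m l μ).length ≤ mm d m * (l * mm d m) := by
  have := length_flatMap_le (List.range (mm d m))
    (fun j => (List.range (l * min (μ.getD j 0) (mm d m))).map fun r => (j, r)) (l * mm d m)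
    fun j _ => by
      rw [List.length_map, List.length_range]
      exact Nat.mul_le_mul_left _ (min_le_right _ _)
  simpa [rowsL] using this

/-- A bound for the number of patterns. -/
def bP (d m l : ℕ) : ℕ :=
  (mm d m + 1) ^ mm d m * (2 ^ mm d m * (mm d m * (l * mm d m) + 1) ^ g0 d m)

theorem length_pats_le (d m l : ℕ) : (pats d m l).length ≤ bP d m l := by
  refine (length_flatMap_le _ _ (2 ^ mm d m * (mm d m * (l * mm d m) + 1) ^ g0 d m)
    fun μ _ => ?_).trans (Nat.mul_le_mul_right _ ?_)
  · refine (length_flatMap_le _ _ ((mm d m * (l * mm d m) + 1) ^ g0 d m)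
      fun fx _ => ?_).trans (Nat.mul_le_mul_right _ ?_)
    · rw [List.length_map, length_tuples, List.length_cons]
      exact Nat.pow_le_pow_left (Nat.add_le_add_right (length_rowsL_le d m l μ) 1) _
    · rw [length_tuples]
      exact le_rfl
  · refine (List.length_filter_le _ _).trans ?_
    rw [length_tuples, List.length_range]

theorem polyB_bP (d m : ℕ) : PolyB (bP d m) :=
  (PolyB.const _).mul ((PolyB.const _).mul
    ((((PolyB.const _).mul (PolyB.id'.mul (PolyB.const _))).add (PolyB.const 1)).pow _))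

theorem length_sys1_le (D : Ds) (fl : List El) (d m l : ℕ) (pat : Pat) :
    (sys1 D fl d m l pat).length ≤ mm d m * (m * 2) + mm d m + mm d m * (l * mm d m) := by
  rw [sys1, List.length_map, eqs1, List.length_append, List.length_append, List.length_map]
  refine Nat.add_le_add (Nat.add_le_add ?_ (by simp [fixA])) (length_rowsL_le d m l _)
  refine (length_flatMap_le _ _ (m * 2) fun j _ => ?_).trans (by simp)
  exact (length_flatMap_le _ _ 2 fun i _ => by simp).trans (by simp)

theorem length_sys0_le (D : Ds) (fl : List El) (d m l : ℕ) :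
    (sys0 D fl d m l).length ≤ d ^ m * (2 * w0 d m * l + 1) :=
  (length_flatMap_le _ _ (2 * w0 d m * l + 1) fun J _ => by simp).trans (by simp)

theorem polyB_dM (d m : ℕ) : PolyB (dM d m) :=
  ((((((PolyB.id'.mul (PolyB.const _)).add (PolyB.const 1)).mul (PolyB.const _)).add
    (PolyB.const 1)).mul ((((PolyB.id'.mul (PolyB.const _)).add (PolyB.const m)).add
      ((PolyB.const 2).mul (PolyB.id'.mul (PolyB.const _)))).mul (PolyB.const d))).add
        (PolyB.const _)).add (PolyB.const 1)

theorem len : StmtLEN := by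
  intro d m
  have hs1 : PolyB fun l => mm d m * (m * 2) + mm d m + mm d m * (l * mm d m) :=
    (PolyB.const _).add ((PolyB.const _).mul (PolyB.id'.mul (PolyB.const _)))
  have hs0 : PolyB fun l => d ^ m * (2 * w0 d m * l + 1) :=
    (PolyB.const _).mul (((PolyB.const _).mul PolyB.id').add (PolyB.const 1))
  have h1 := (polyB_bP d m).mul
    ((polyB_solve (nV d m) (polyB_dM d m) (polyB_bP d m) hs1).pow (nV d m))
  have h0 := (polyB_solve (nV0 d m) (PolyB.id'.add (PolyB.const 1)) (PolyB.const 1) hs0).pow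
    (nV0 d m)
  obtain ⟨R, hR⟩ := h1.add h0
  refine ⟨R, fun l D fl hl => ⟨?_, ?_⟩⟩
  · refine le_trans ?_ ((Nat.le_add_right _ _).trans (hR l hl))
    refine Nat.mul_le_mul (length_pats_le d m l) (Nat.pow_le_pow_left ?_ _)
    refine length_solve_le D _ _ _ _ _ (by rw [List.length_map]; exact length_pats_le d m l) ?_
    intro eqs he
    obtain ⟨pat, -, rfl⟩ := List.mem_map.1 he
    exact length_sys1_le D fl d m l pat
  · refine le_trans ?_ ((Nat.le_add_left _ _).trans (hR l hl))
    refine Nat.pow_le_pow_left ?_ _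
    refine length_solve_le D _ _ _ _ _ (by simp) ?_
    intro eqs he
    rw [List.mem_singleton.1 he]
    exact length_sys0_le D fl d m l

end Pool.Agent.MP_cce4c9_lc.H4
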