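import Pool.Agent.MP_cce4c9_lc.H87.SpecQ

/-! The trace formula on a finite product of function fields. -/

set_option autoImplicit false

open WithZero Polynomial Finset

namespace Pool.Agent.MP_cce4c9_lc.H4

open H87 H87.Cv

/-- The map on `H / H ^ l` induced by a group homomorphism. -/
def hmap {H H' : Type} [CommGroup H] [CommGroup H'] (l : ℕ) (φ : H →* H') :
    Hl H l →ₗ[ZMod l] Hl H' l :=
  AddMonoidHom.toZModLinearMap l <| MonoidHom.toAdditive <|
    QuotientGroup.map _ _ φ (by rintro _ ⟨a, rfl⟩; exact ⟨φ a, by simp⟩)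

theorem hmap_mk {H H' : Type} [CommGroup H] [CommGroup H'] (l : ℕ) (φ : H →* H') (a : H) :
    hmap l φ (Hl.mk l a) = Hl.mk l (φ a) := rfl

theorem mk_prod {H ι : Type} [CommGroup H] (l : ℕ) (s : Finset ι) (g : ι → H) :
    Hl.mk l (∏ i ∈ s, g i) = ∑ i ∈ s, Hl.mk l (g i) := by
  classical
  induction s using Finset.induction_on with
  | empty => simp [Hl.mk_one]
  | insert a s ha ih => rw [prod_insert ha, sum_insert ha, Hl.mk_mul, ih]

variable {k : Type} [Field k] {d m : ℕ} {f : k[X]} {C : Cv k d m f} (P : C.Cmp)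

/-- The decomposition as a ring isomorphism. -/
noncomputable def E : C.Q ≃+* ∀ i, P.K i :=
  RingEquiv.ofBijective (RingHom.pi fun i => (P.φ i).toRingHom) P.bij

theorem phi_E (i : P.I) (x : ∀ i, P.K i) : P.φ i ((E P).symm x) = x i :=
  congrFun ((E P).apply_symm_apply x) i

theorem ext_phi {y z : C.Q} (h : ∀ i, P.φ i y = P.φ i z) : y = z := P.bij.1 (funext h)

theorem phi_surj (i : P.I) (x : P.K i) : ∃ y, P.φ i y = x :=
  ⟨(E P).symm (Pi.single i x), by rw [phi_E, Pi.single_eq_same]⟩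

theorem phi_const (i : P.I) (c : k) : P.φ i (algebraMap k C.Q c) = algebraMap k (P.K i) c := by
  rw [IsScalarTower.algebraMap_apply k (RatFunc k) C.Q, AlgHom.commutes,
    ← IsScalarTower.algebraMap_apply]

/-- Projection of units. -/
noncomputable def prU (i : P.I) : C.Qˣ →* (P.K i)ˣ := Units.map (P.φ i).toRingHom.toMonoidHom

/-- Inclusion of units. -/
noncomputable def inU (i : P.I) : (P.K i)ˣ →* C.Qˣ :=
  Units.map ((E P).symm.toRingHom.toMonoidHom.comp (MonoidHom.mulSingle P.K i))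

theorem prU_val (i : P.I) (u : C.Qˣ) : (prU P i u : P.K i) = P.φ i u := rfl

theorem phi_inU (i j : P.I) (u : (P.K j)ˣ) :
    P.φ i (inU P j u) = (Pi.mulSingle j (u : P.K j) : ∀ i, P.K i) i := phi_E P i _

theorem prod_inU (u : C.Qˣ) : ∏ i, inU P i (prU P i u) = u := by
  refine Units.ext (ext_phi P fun j => ?_)
  rw [Units.coe_prod, map_prod, Finset.prod_eq_single j]
  · rw [phi_inU, Pi.mulSingle_eq_same, prU_val]
  · intro i _ hij
    rw [phi_inU, Pi.mulSingle_eq_of_ne hij.symm]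
  · simp

theorem up_ord (i : P.I) (w : Place k (P.K i)) (y : C.Q) :
    (P.up ⟨i, w⟩).ord y = w.ord (P.φ i y) := by
  rw [Place.ord, P.up_val, Place.ord]

variable (l : ℕ) [Fact l.Prime]

/-- Projection to a component. -/
noncomputable def prV (i : P.I) : VV k C.Q l →ₗ[ZMod l] VV k (P.K i) l :=
  (hmap l (prU P i)).restrict fun a ha => by
    obtain ⟨u, rfl, hu⟩ := mem_VV.1 ha
    exact mem_VV.2 ⟨prU P i u, rfl, fun w => by rw [prU_val, ← up_ord]; exact hu _⟩

/-- Inclusion of a component. -/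
noncomputable def inV (i : P.I) : VV k (P.K i) l →ₗ[ZMod l] VV k C.Q l :=
  (hmap l (inU P i)).restrict fun a ha => by
    obtain ⟨u, rfl, hu⟩ := mem_VV.1 ha
    refine mem_VV.2 ⟨inU P i u, rfl, fun v => ?_⟩
    obtain ⟨⟨j, w⟩, rfl⟩ := P.up.surjective v
    rw [up_ord, phi_inU]
    by_cases hj : j = i
    · subst hj
      rw [Pi.mulSingle_eq_same]
      exact hu w
    · rw [Pi.mulSingle_eq_of_ne hj, Place.ord_one]
      exact dvd_zero _

theorem sum_inV (a : VV k C.Q l) : ∑ i, inV P l i (prV P l i a) = a := by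
  obtain ⟨a, ha⟩ := a
  obtain ⟨u, rfl⟩ := Hl.mk_surj l a
  refine Subtype.ext ?_
  rw [Submodule.coe_sum]
  show ∑ i, Hl.mk l (inU P i (prU P i u)) = Hl.mk l u
  rw [← mk_prod, prod_inU]

theorem finite_VV (h : ∀ i, Module.Finite (ZMod l) (VV k (P.K i) l)) :
    Module.Finite (ZMod l) (VV k C.Q l) := by
  refine Module.Finite.of_injective (LinearMap.pi fun i => prV P l i) fun a b hab => ?_
  rw [← sum_inV P l a, ← sum_inV P l b]
  refine Finset.sum_congr rfl fun i _ => ?_
  have : prV P l i a = prV P l i b := congrFun hab i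
  rw [this]

theorem trace_sum (h : ∀ i, Module.Finite (ZMod l) (VV k (P.K i) l))
    (T : VV k C.Q l →ₗ[ZMod l] VV k C.Q l) :
    LinearMap.trace (ZMod l) _ T =
      ∑ i, LinearMap.trace (ZMod l) _ (prV P l i ∘ₗ T ∘ₗ inV P l i) := by
  haveI := finite_VV P l h
  have h1 : T = ∑ i, (T ∘ₗ inV P l i) ∘ₗ prV P l i := by
    ext1 a
    rw [LinearMap.sum_apply]
    conv_lhs => rw [← sum_inV P l a, map_sum]
    rfl
  conv_lhs => rw [h1, map_sum]
  exact Finset.sum_congr rfl fun i _ => LinearMap.trace_comp_comm' _ _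

/-- The automorphism maps the component to itself. -/
def Fx (θ : SA k C.Q) (i : P.I) : Prop := ∀ y, P.φ i (θ.1 y) = 0 ↔ P.φ i y = 0

variable {P}

theorem Fx.inv {θ : SA k C.Q} {i : P.I} (h : Fx P θ i) : Fx P θ⁻¹ i := fun y => by
  have := h (θ.1.symm y)
  rw [RingEquiv.apply_symm_apply] at this
  exact this.symm

theorem Fx.congr {θ : SA k C.Q} {i : P.I} (h : Fx P θ i) {y z : C.Q} (e : P.φ i y = P.φ i z) :
    P.φ i (θ.1 y) = P.φ i (θ.1 z) := by
  rw [← sub_eq_zero, ← map_sub, ← map_sub, h, map_sub, e, sub_self]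

theorem fx_of_ne {θ : SA k C.Q} {i : P.I}
    (h : P.φ i (θ.1 ((E P).symm (Pi.single i 1))) ≠ 0) : Fx P θ i := by
  have h1 : ∀ y, P.φ i y = 0 → P.φ i (θ.1 y) = 0 := fun y hy => by
    have h2 : y * (E P).symm (Pi.single i 1) = 0 := ext_phi P fun j => by
      rw [map_mul, phi_E, map_zero]
      by_cases hj : j = i
      · subst hj
        rw [hy, zero_mul]
      · rw [Pi.single_eq_of_ne hj, mul_zero]
    have h3 := congrArg (fun z => P.φ i (θ.1 z)) h2
    simp only [map_mul, map_zero] at h3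
    exact (mul_eq_zero.1 h3).resolve_right h
  refine fun y => ⟨fun hy => ?_, h1 y⟩
  by_contra hne
  obtain ⟨z, hz⟩ := phi_surj P i (P.φ i y)⁻¹
  have h2 := h1 (y * z - 1) (by rw [map_sub, map_mul, hz, mul_inv_cancel₀ hne, map_one, sub_self])
  rw [map_sub, map_mul, map_sub, map_mul, hy, zero_mul, map_one, map_one, zero_sub,
    neg_eq_zero] at h2
  exact one_ne_zero h2

theorem nonfix_zero {θ : SA k C.Q} {i : P.I} (h : ¬ Fx P θ i) :
    prV P l i ∘ₗ actV l θ ∘ₗ inV P l i = 0 := by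
  have h0 : P.φ i (θ.1 ((E P).symm (Pi.single i 1))) = 0 := by
    by_contra hne
    exact h (fx_of_ne hne)
  ext1 a
  obtain ⟨a, ha⟩ := a
  obtain ⟨u, rfl⟩ := Hl.mk_surj l a
  refine Subtype.ext ?_
  show Hl.mk l (prU P i (Units.map θ.1.toRingHom.toMonoidHom (inU P i u))) = 0
  rw [← Hl.mk_one]
  congr 1
  refine Units.ext ?_
  show P.φ i (θ.1 (inU P i u)) = 1
  have h2 : (inU P i u : C.Q) =
      1 + (E P).symm (Pi.single i 1) * (E P).symm (Pi.single i ((u : P.K i) - 1)) :=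
    ext_phi P fun j => by
      rw [phi_inU, map_add, map_mul, phi_E, phi_E, map_one]
      by_cases hj : j = i
      · subst hj
        simp
      · rw [Pi.mulSingle_eq_of_ne hj, Pi.single_eq_of_ne hj, zero_mul, add_zero]
  rw [h2, map_add, map_mul, map_add, map_mul, h0, zero_mul, map_one, map_one, add_zero]

theorem descend {θ : SA k C.Q} {i : P.I} (h : Fx P θ i) :
    ∃ τ : SA k (P.K i), ∀ y, τ.1 (P.φ i y) = P.φ i (θ.1 y) := by
  choose sec hsec using phi_surj P i
  have key : ∀ {η : SA k C.Q}, Fx P η i → ∀ y, P.φ i (η.1 (sec (P.φ i y))) = P.φ i (η.1 y) :=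
    fun hη y => hη.congr (hsec _)
  let τ : P.K i ≃+* P.K i :=
    { toFun := fun x => P.φ i (θ.1 (sec x))
      invFun := fun x => P.φ i ((θ⁻¹).1 (sec x))
      left_inv := fun x => by
        show P.φ i ((θ⁻¹).1 (sec (P.φ i (θ.1 (sec x))))) = x
        rw [key h.inv]
        exact (congrArg (P.φ i) (θ.1.symm_apply_apply _)).trans (hsec x)
      right_inv := fun x => by
        show P.φ i (θ.1 (sec (P.φ i ((θ⁻¹).1 (sec x))))) = x
        rw [key h]
        exact (congrArg (P.φ i) (θ.1.apply_symm_apply _)).trans (hsec x)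
      map_mul' := fun x y => by
        rw [← map_mul, ← map_mul]
        exact h.congr (by rw [map_mul, hsec, hsec, hsec])
      map_add' := fun x y => by
        rw [← map_add, ← map_add]
        exact h.congr (by rw [map_add, hsec, hsec, hsec]) }
  have hτ : ∀ y, τ (P.φ i y) = P.φ i (θ.1 y) := key h
  refine ⟨⟨τ, fun x => ⟨?_, ?_⟩⟩, hτ⟩
  · rintro ⟨c, hc⟩
    obtain ⟨c', hc'⟩ := aut_const θ⁻¹ c
    refine ⟨c', τ.injective ?_⟩
    rw [← hc, ← phi_const P i c', hτ, ← hc', ← phi_const P i c]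
    exact congrArg (P.φ i) (θ.1.apply_symm_apply _)
  · rintro ⟨c, rfl⟩
    obtain ⟨c', hc'⟩ := aut_const θ c
    exact ⟨c', by rw [← phi_const P i c, hτ, hc', phi_const]⟩

theorem descend_inv {θ : SA k C.Q} {i : P.I} {τ : SA k (P.K i)}
    (hτ : ∀ y, τ.1 (P.φ i y) = P.φ i (θ.1 y)) (y : C.Q) :
    (τ⁻¹).1 (P.φ i y) = P.φ i ((θ⁻¹).1 y) := by
  apply τ.1.injective
  rw [hτ]
  exact (τ.1.apply_symm_apply _).trans (congrArg (P.φ i) (θ.1.apply_symm_apply y).symm)

theorem fix_eq {θ : SA k C.Q} {i : P.I} {τ : SA k (P.K i)}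
    (hτ : ∀ y, τ.1 (P.φ i y) = P.φ i (θ.1 y)) :
    prV P l i ∘ₗ actV l θ ∘ₗ inV P l i = actV l τ := by
  ext1 a
  obtain ⟨a, ha⟩ := a
  obtain ⟨u, rfl⟩ := Hl.mk_surj l a
  refine Subtype.ext ?_
  show Hl.mk l (prU P i (Units.map θ.1.toRingHom.toMonoidHom (inU P i u))) =
    Hl.mk l (Units.map τ.1.toRingHom.toMonoidHom u)
  congr 1
  refine Units.ext ?_
  show P.φ i (θ.1 (inU P i u)) = τ.1 u
  rw [← hτ, phi_inU, Pi.mulSingle_eq_same]

theorem smul_up_iff (θ : SA k C.Q) (i : P.I) (w : Place k (P.K i)) :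
    θ • P.up ⟨i, w⟩ = P.up ⟨i, w⟩ ↔ ∀ y, w.val (P.φ i ((θ⁻¹).1 y)) = w.val (P.φ i y) := by
  constructor
  · intro h y
    rw [← P.up_val, ← P.up_val]
    conv_rhs => rw [← h]
    rfl
  · intro h
    ext y
    rw [smul_val, P.up_val, P.up_val]
    exact h y

theorem vq : H7.StmtT0 → StmtVQ := by
  intro T0 k _ _ l p d m _ _ _ f C P hlp
  have hfin : ∀ i, Module.Finite (ZMod l) (VV k (P.K i) l) :=
    fun i => (T0 k (P.K i) l p (P.ff i) hlp).1
  refine ⟨finite_VV P l hfin, fun a σ ha hσ => ?_⟩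
  classical
  let S : ∀ i, Set (Place k (P.K i)) := fun i => {w | σ.1 • P.up ⟨i, w⟩ = P.up ⟨i, w⟩}
  have hS : ∀ i, (S i).Finite ∧ (((S i).ncard : ℕ) : ZMod l) =
      (if Fx P σ.1 i then 1 + ((p ^ a : ℕ) : ZMod l) else 0) - ((p ^ a : ℕ) : ZMod l) *
        LinearMap.trace (ZMod l) _ (prV P l i ∘ₗ actV l σ.1⁻¹ ∘ₗ inV P l i) := by
    intro i
    by_cases h : Fx P σ.1 i
    · obtain ⟨τ, hτ⟩ := descend h
      have hF : IsFrob (p ^ a) τ := fun c => by
        rw [← phi_const P i c, hτ, hσ c, phi_const]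
      have hSi : S i = {w | τ • w = w} := by
        ext w
        show σ.1 • P.up ⟨i, w⟩ = P.up ⟨i, w⟩ ↔ τ • w = w
        rw [smul_up_iff]
        constructor
        · intro hw
          ext x
          obtain ⟨y, rfl⟩ := phi_surj P i x
          rw [smul_val]
          exact (congrArg w.val (descend_inv hτ y)).trans (hw y)
        · intro hw y
          rw [← descend_inv hτ y]
          conv_rhs => rw [← hw]
          rfl
      rw [hSi, if_pos h, fix_eq l (descend_inv hτ)]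
      exact (T0 k (P.K i) l p (P.ff i) hlp).2 a τ ha hF
    · have hSi : S i = ∅ := by
        refine Set.eq_empty_of_forall_notMem fun w hw => h ?_
        have h1 : Fx P σ.1⁻¹ i := fun y => by
          have := (smul_up_iff σ.1 i w).1 hw y
          rw [← w.val.zero_iff, this, w.val.zero_iff]
        simpa using h1.inv
      have h2 : ¬ Fx P σ.1⁻¹ i := fun h1 => h (by simpa using h1.inv)
      rw [hSi, if_neg h, nonfix_zero l h2]
      simp
  let Z : Finset (Σ i, Place k (P.K i)) := Finset.univ.sigma fun i => (hS i).1.toFinset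
  have hZ : {v : Place k C.Q | σ.1 • v = v} = ↑(Z.map P.up.toEmbedding) := by
    ext v
    obtain ⟨⟨i, w⟩, rfl⟩ := P.up.surjective v
    simp [Z, S]
  refine ⟨hZ ▸ Finset.finite_toSet _, ?_⟩
  have hn : P.nfix σ = (Finset.univ.filter fun i => Fx P σ.1 i).card := by
    rw [Cmp.nfix, ← Set.ncard_coe_finset]
    congr 1
    ext i
    simp [Fx]
  rw [hZ, Set.ncard_coe_finset, Finset.card_map, Finset.card_sigma, trace_sum P l hfin, hn,
    Nat.cast_sum, Finset.mul_sum]
  simp only [← Set.ncard_eq_toFinset_card _ (hS _).1, (hS _).2]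
  rw [Finset.sum_sub_distrib, ← Finset.sum_filter, Finset.sum_const, nsmul_eq_mul, mul_comm]

end Pool.Agent.MP_cce4c9_lc.H4
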